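import Mathlib

set_option autoImplicit false

/-!
Definitions for span `n` sequences generated by nonlinear feedback shift registers with
orthogonal feedback.
-/

open Finset

namespace Pool.Agent.SpanN

/-- `g : F → F₂` is orthogonal: for every `l ≠ 1` in `F`,
`∑ₓ (-1)^(g (l x) + g x) = 0`. -/
def IsOrthogonal {F : Type} [Field F] [Fintype F] (g : F → ZMod 2) : Prop :=
  ∀ l : F, l ≠ 1 → ∑ x : F, (-1 : ℤ) ^ ((g (l * x)).val + (g x).val) = 0

/-- The element `∑ i < m, x_i α^i` of `F`, which has coordinates `x` in `1, α, …, α^(m-1)`. -/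
def ofCoords {F : Type} [Field F] [Algebra (ZMod 2) F] {m : ℕ} (α : F)
    (x : Fin m → ZMod 2) : F :=
  ∑ i : Fin m, x i • α ^ (i : ℕ)

/-- `g` is an affine function of the coordinates in `1, α, …, α^(m-1)`. -/
def IsAffineInCoords {F : Type} [Field F] [Algebra (ZMod 2) F] (m : ℕ) (α : F)
    (g : F → ZMod 2) : Prop :=
  ∃ (a : Fin m → ZMod 2) (b : ZMod 2), ∀ x : Fin m → ZMod 2,
    g (ofCoords α x) = b + ∑ i : Fin m, a i * x i

/-- The recurrence `s_{k+n} = c + s_k + g(s_{k+r_1}, …, s_{k+r_m})` over `F₂`, for all `k ≥ 0`. -/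
def IsGenerated {F : Type} [Field F] [Algebra (ZMod 2) F] {m : ℕ} (α : F) (g : F → ZMod 2)
    (n : ℕ) (c : ZMod 2) (r : Fin m → ℕ) (s : ℕ → ZMod 2) : Prop :=
  ∀ k : ℕ, s (k + n) = c + s k + g (ofCoords α (fun i => s (k + r i)))

/-- `s` is a span `n` sequence: it has period `2^n - 1` and each nonzero `n`-tuple occurs exactly
once among the windows starting at positions `0, …, 2^n - 2`. -/
def IsSpanN (n : ℕ) (s : ℕ → ZMod 2) : Prop :=
  (∀ k : ℕ, s (k + (2 ^ n - 1)) = s k) ∧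
    ∀ v : Fin n → ZMod 2, v ≠ 0 →
      ∃! k : ℕ, k < 2 ^ n - 1 ∧ ∀ i : Fin n, s (k + (i : ℕ)) = v i

/-- The linear span of `s`: the least length `L` of a linear feedback shift register (a linear
recurrence `s_{k+L} = ∑ i < L, a_i s_{k+i}` for all `k`) generating `s`. -/
noncomputable def linearSpan (s : ℕ → ZMod 2) : ℕ :=
  sInf {L : ℕ | ∃ a : Fin L → ZMod 2, ∀ k : ℕ, s (k + L) = ∑ i : Fin L, a i * s (k + (i : ℕ))}

end Pool.Agent.SpanN
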