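import Pool.Agent.SpanN.Defs

set_option autoImplicit false

/-!
The example: `n = 10`, `m = 9`, `g(x) = Tr(α^301 x^107)`, taps `1, …, 9`, `c = 0`.
-/

open Finset

namespace Pool.Agent.SpanN

namespace Aux

/-- one period of the sequence, as bits -/
def SN : ℕ := 0x1e47daabca8b51c15fd372465ca63a3c226d6566ffd962eeb6f76627219d22167304b26ae6b44946a68c51178954a5e95d58ff3623b9dea848408d9f5db06bd861d41c410fcbf5203b4b6456e39fc7b77c1eb0b8b02930999064ba0b7d14ec6e9f156b80633493afb8503e78d3286854f43969c602f93f79c3ccf7e1bc0db401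
/-- two periods -/
def DN : ℕ := SN ||| (SN <<< 1023)
/-- coefficients of the linear recurrence -/
def AN : ℕ := 0x6763c793b626f6f54df40f32c8207b4f73b8b9e94bc3ce51ebcc02e7bd8b4ae2c5e144edf5f1f1508efb6fe5f20e7c5c62311845d927320de82229d88c02e5f0805f49331a292553954f146489df436a253ee99f51a96791d7ffec6f52130defee62fd39dd949d3ed0604a3d6428efb57ef11c5b52bbb36c2b7df09
/-- truth table of `g` in coordinates -/
def GN : ℕ := 0x8c68e40053eac02ce9e81f305924fb317144bb5c9ffd4a6315477d1025f1942a37e309a397f358180998f332960ffea1b64c7a762ef8347d15ebb8a265ffeb30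
/-- packed table of the powers of `α` -/
def PW : ℕ := 0xf1e489224f8e6c9bc53174b15a6d86ef7c5f17fd0f43d0f7b32ba92a7270e43e118461fbcf13c4ff03c0f03c0f03f80e0380e0380e03f11c471ffce1384e13f51d475fece6b76a5ae761343b32cf3ccfd0340d0340d0378327aa2a8abed98d7ed0b42d0b7a32fa82a0a82a0af364357b62d8b7ea7aef6334bb12c73f084210843d79625897e278efe308c2308facebd9367571244e0e0c83c330f4cd3d735f58d635fc9f3bb8d2370307a2288a3ef98260982609f39cfb46d1b7e33fac2b0ac2be93a7671e47e01806018060180601f19c7b66dea9abad88d3ec0b02c0b02c0be13876f1c4711fc8f23cfee749dc4c0e8ca3cb32f44d1d7c411044110479f2048120481204f0e4c93c731f48d234fce7c9fc4310c431efca1284a12f565b51b7dc1705c1705f98e639ff9ffb86e1b86fdc771dff8fe3ffe1f87e1ff61d8761df69dbb18fd21485214f4e5c97c6318c7f67dee9bba989d394f9465197eb3dacdaee4b9cdc290b8582d16cb75bede6f77a5ee66174250e5e188621f99e7be6fea1a86a1af765353b72df38ce33fd1f47dfcceeb4adc8c3e80a0280a0280a02f164b55b6dc6ff785e1785fd0741d0741de4c8eacabc9327471645e0983a78a2288be59ad76d373bf2ff30cc330cfbcefd8360d8360df29cbb58ed26c7765de699ba18bd314c53f73df78de37fc1f07c1f07f90e4390e7b72a4ae360347b22c8b3eb99267170240e1e088220f9e689a26f866f5c5715fd8f63dfe9fbb98dd294b9586d06cf745d177d333af2bf20c8320c833cb912471f00401004010040100401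
/-- packed table of logarithms -/
def LG : ℕ := 0xe5bdb86ed9708936eaefb51929e875bab24ab213f58251c6602bed172b8e131fd62055db839954cf020b8bd2e6c660605c66d54f4a848ed7b3cf906178fe45ff5191dce8b4df63d5c32b32c4db634840f49ad10b95ca8dfdc06391dce8171bed09a0aa3a5d7eb113cc94a9b7c8ee77ca1619596c695949c38ccf29ed2e1104c4c7cd71afde570b195dd81e2bd1dad34e449ad77f05cae17488f896178183631514fe7fa8d179b63700dba90ceed7a3b2ce4fe53dd504cdc28e0a658f57ce1f519af5279e01a39f33be652ca078b4de1e4a57d67de2d03495ac43591de4d4b785ca14fe4de2d0a0df5763d2366038bf41014b06d84551bfd3f02f3b1c6fd40b7340fdaf2b85299e3e87367df27f224b79036b15ab0b7b90b45e57e31950d07a087abb042e969a76da49270932fec56cc30fda323bdc2e5c0716a483aebe0ba44a2f366dd455931a2f3a1d6efc62b95c282a9ba44249b6dc280aa689332cf4108935bed0abb784eb4d357bd6e872b85d88fd5166b7fa8dd0eb253c0909d31563e6bbcda2669443add9459966948677659c9fc0b06d626c6287f058a7f0151ba7cced5843b9caf721f1ac1838fbc0c0660775ba1384811fae5fd97739388827b90f99d325bcab461b7aa21fb54f99d940f6ac27c14cf72182cfccce9c733b135575ba128372ca93ee7205761c4c13f71a9960ce32057e385e067391fd5d871a0485d2789814fb43303a114b42bef4d3aaa681b692e3d820719c147f1a052375d01d12fecc1b4a7d4e73e91afc623c04eb74365499c2422e03e7d211e02a38040000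
/-- packed table of window positions -/
def POS : ℕ := 0xd5b55d5266d4fb39958b11352723b2991d26282110cbafa75186dc7ec515292637444e624f30817509842cb8b9607e8d42008696b90dc6ec27f4507628c3d98830743d8137f36209d3ca9907f7c5d0140957991c41cb73e940b860213f9db4ca74f419ff30219ce96a9ce42715ef3ebaf9fb0be11131d524640a29303c986d60bef573c6cf5f93133a5fcb1961d962705f570f1a61e30dc1e2d37b5cfbf04ce0d642446178cc646100175f32ccf4fd93fa8664b7cd17f02a12db7e66cc0788b28d39a84165c7fa0f2fe05860e5ce6d1da969b7672f8e41ae5c4f21ee3e465eb8966c27d3330ae0eb144acc1d08548c0463e1f0a8a192f0fbe43bd7660b54d00b93bc96f473b991af4bd97d6e489012ee44b7a4fc5a5c61379ad86e25954089b3545ed155b3c2aac8697965e20d9f5075fb590b35137a5ca0cefaf004954164dfd63b5728232f11714177cc202916810ffdaa6c165ef408572bcf2753f12693ad8e57a76615e2d8e246b335f99bcd8096aa1139f6cf97ca19db2b3806886fbd7f27d3767b99a79b504d1e5b7f56683956edcbe813dc85e77b68e4677383a6d0d87699bd68f7adc3ae71f83e2a3e401f6b8a35c3f1fd28f9ed3e07b42c64eb6b62578ea19af9f28b530cbc25c1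e0bc5afeb0f4111b2ea51cc8c2123c7ad222b40363847878f60a479fd8a09290930f0ebe31c1883ad73abdc25fb52e033eb40b53e24d3ae332451ef3736844a7986b46aba74a9eb64a4bd5e4689b088f128c6b8d4a4b2c5327a3fc3a069307c5e354d9bf9abed6178095388653c340626af49a3539dab85da7f44f395a684ef43ea9c8374a5ac9962a3c11e175c357d0710708ac51fa58f00208b250e3ade6325c5e982d33483bdbbddd2ac1154e2d6f05837801d5e67ed18c115c974c222efea871162944f3d17609f2f60a015b244a00770f831f67f427a9adf4155ea48cfe51851b5ca9073073b9d1f03ef0ce15256464db5ef61b794e9b1a65c60575e40e0b5f00e1d6919cc8185f4feea59acd40bdb80888da997610818e6b4b6bb7be4aebc9198976c4cdacacd218058802bc42fad78d14f326e6b4cd9891b952e699389b38a40cd6d1aabc8a5a7d9fc59545836f15545aed9cb2f45180e82f6e9cd06169d927b679657ce346d9ccddab3a3cb1a2cfbf360da2e79bb4859d57ee3dd9e2db678ead8a70f7cecf86901fa8ef4e3f1f10cadf8fa1e8c535c2f1ac0f46a62363d7b0ae120f71ebf7428c4c7463eb371b86b54fc94e3548a152a6baea9ee93a2ac331d4bb18cae87088d9c0fbb81957c489ebee7aafa83cf68910dd6caa93057607222f15c04838ee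337a934485de2b22e6f4029a18d119d4fae1d298f50a1835b4780cbf527f7e926526d908309f1c378664af71bb1b185e50e7c1d6c193ffaa0336f8925e81ed3b7ebb260ceacc870b3113493de6c924bd39e2cd7ab3237dd46bc85b73052a0e9dd0928e5d60471acf3069bf6e8d2558ee67967f633b6911ffd443790a214eb06a7238af127f83171edcae2501494aeeba52c4322c7e8a37fbe568a39fa85a3ddb0676716c0a344d5df8bdbe9a5d5fb0a76116e0cf7f94db77cb8764c6f79bc20690003625822bc26488c48d3e7130362ad7e05c14e9ed0d61477cdbf959ee9a03b8804394faa0b0fe71fdcd41bb295b223895e29a8b7776b0378230758a85bc346e1f31c1e706c0e82489c4d31365f91516247affeec81540b1fe942bb6398ab7876e312a5706e5e803e0a4c8da1551fef151feeee8addc2a9ba040db15952ff22c6ecdc15ffd377fe00000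

def tab (j : ℕ) : ℕ := (PW >>> (9 * j)) % 512
def lg (j : ℕ) : ℕ := (LG >>> (9 * j)) % 512
def pos (j : ℕ) : ℕ := (POS >>> (10 * j)) % 1024
/-- multiplication by `α` on coordinates, before reduction and after -/
def xt (b : ℕ) : ℕ := if (2 * b).testBit 9 then (2 * b) ^^^ 0x38f else 2 * b

/-- traces of `α^0, …, α^8` -/
def mask : ℕ := 439

def par9 (b : ℕ) : Bool :=
  xor (b.testBit 0) (xor (b.testBit 1) (xor (b.testBit 2) (xor (b.testBit 3)
    (xor (b.testBit 4) (xor (b.testBit 5) (xor (b.testBit 6) (xor (b.testBit 7)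
      (b.testBit 8))))))))

theorem tab_zero : tab 0 = 1 := by decide +kernel
theorem tab_succ : ∀ j < 511, tab (j + 1) = xt (tab j) := by decide +kernel
theorem tab_lt : ∀ j < 512, tab j < 512 := by decide +kernel
theorem tab_511 : tab 511 = 1 := by decide +kernel
theorem lg_lt : ∀ b < 512, lg b < 511 := by decide +kernel
theorem tab_lg : ∀ b < 512, b ≠ 0 → tab (lg b) = b := by decide +kernel
theorem G_zero : GN.testBit 0 = false := by decide +kernel
theorem G_spec : ∀ b < 512, b ≠ 0 →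
    GN.testBit b = par9 (tab ((301 + 107 * lg b) % 511) &&& mask) := by decide +kernel
theorem rec_spec : ∀ k < 1023,
    DN.testBit (k + 10) = xor (DN.testBit k) (GN.testBit ((DN >>> (k + 1)) % 512)) := by
  decide +kernel
theorem win_ne : ∀ k < 1023, pos ((DN >>> k) % 1024) = k := by decide +kernel
theorem pos_spec : ∀ w < 1024, w ≠ 0 → pos w < 1023 ∧ (DN >>> (pos w)) % 1024 = w := by
  decide +kernel

def R : ℕ → ℕ
  | 0 => 0
  | t + 1 => R t ^^^ (if AN.testBit t then DN >>> t else 0)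

theorem R_spec : (R 987 ^^^ (DN >>> 987)) % 2 ^ 1023 = 0 := by decide +kernel


/-- value of a bit vector at `x` -/
def val {A : Type} [CommRing A] (x : A) (b : ℕ) : A :=
  ∑ i ∈ range 10, if b.testBit i then x ^ i else 0

theorem val_xor {A : Type} [CommRing A] [CharP A 2] (x : A) (a b : ℕ) :
    val x (a ^^^ b) = val x a + val x b := by
  unfold val
  rw [← sum_add_distrib]
  refine sum_congr rfl fun i _ => ?_
  rw [Nat.testBit_xor]
  cases a.testBit i <;> cases b.testBit i <;> simp [CharTwo.add_self_eq_zero]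

theorem testBit_two_mul_succ' (b i : ℕ) : (2 * b).testBit (i + 1) = b.testBit i := by
  rw [Nat.testBit_succ]; simp

theorem val_two_mul {A : Type} [CommRing A] (x : A) (b : ℕ) (hb : b < 512) :
    val x (2 * b) = x * val x b := by
  have h9 : b.testBit 9 = false := Nat.testBit_lt_two_pow (by simpa using hb)
  have h0 : (2 * b).testBit 0 = false := by simp
  unfold val
  rw [sum_range_succ', sum_range_succ (n := 9), h9, h0]
  simp only [testBit_two_mul_succ', mul_sum, Bool.false_eq_true, if_false, add_zero]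
  refine sum_congr rfl fun i _ => ?_
  split_ifs
  · ring
  · ring

theorem val_poly {A : Type} [CommRing A] (x : A)
    (hx : x ^ 9 + x ^ 8 + x ^ 7 + x ^ 3 + x ^ 2 + x + 1 = 0) : val x 0x38f = 0 := by
  unfold val
  simp only [sum_range_succ, sum_range_zero]
  have e : ∀ i < 10, (0x38f : ℕ).testBit i = true ↔ (i = 0 ∨ i = 1 ∨ i = 2 ∨ i = 3 ∨ i = 7 ∨
      i = 8 ∨ i = 9) := by decide
  simp only [e 0 (by norm_num), e 1 (by norm_num), e 2 (by norm_num), e 3 (by norm_num),
    e 4 (by norm_num), e 5 (by norm_num), e 6 (by norm_num), e 7 (by norm_num),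
    e 8 (by norm_num), e 9 (by norm_num)]
  norm_num
  linear_combination hx

theorem val_xt {A : Type} [CommRing A] [CharP A 2] (x : A)
    (hx : x ^ 9 + x ^ 8 + x ^ 7 + x ^ 3 + x ^ 2 + x + 1 = 0) (b : ℕ) (hb : b < 512) :
    val x (xt b) = x * val x b := by
  unfold xt
  split_ifs
  · rw [val_xor, val_poly x hx, val_two_mul x b hb, add_zero]
  · rw [val_two_mul x b hb]

theorem val_one {A : Type} [CommRing A] (x : A) : val x 1 = 1 := by
  unfold val
  rw [sum_range_succ']
  have : ∀ i, (1 : ℕ).testBit (i + 1) = false := by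
    intro i; rw [Nat.testBit_succ]; simp
  simp [this]

theorem val_zero {A : Type} [CommRing A] (x : A) : val x 0 = 0 := by
  unfold val; simp

/-- powers of `x` from the table -/
theorem pow_eq {A : Type} [CommRing A] [CharP A 2] (x : A)
    (hx : x ^ 9 + x ^ 8 + x ^ 7 + x ^ 3 + x ^ 2 + x + 1 = 0) :
    ∀ j : ℕ, j < 512 → x ^ j = val x (tab j) := by
  intro j
  induction j with
  | zero => intro _; rw [tab_zero, val_one, pow_zero]
  | succ j ih =>
    intro hj
    rw [tab_succ j (by omega), val_xt x hx _ (tab_lt j (by omega)), ← ih (by omega)]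
    ring

theorem pow_511 {A : Type} [CommRing A] [CharP A 2] (x : A)
    (hx : x ^ 9 + x ^ 8 + x ^ 7 + x ^ 3 + x ^ 2 + x + 1 = 0) : x ^ 511 = 1 := by
  rw [pow_eq x hx 511 (by norm_num), tab_511, val_one]

section Field

variable {F : Type} [Field F] [Fintype F] [Algebra (ZMod 2) F]

theorem charTwo (F : Type) [Field F] [Algebra (ZMod 2) F] : CharP F 2 :=
  charP_of_injective_algebraMap (algebraMap (ZMod 2) F).injective 2

open Polynomial in
theorem exists_root (hF : Fintype.card F = 2 ^ 9) :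
    ∃ α : F, α ^ 9 + α ^ 8 + α ^ 7 + α ^ 3 + α ^ 2 + α + 1 = 0 := by
  classical
  have := charTwo F
  let P : F[X] := X ^ 9 + X ^ 8 + X ^ 7 + X ^ 3 + X ^ 2 + X + 1
  have hPdeg : P.natDegree = 9 := by
    simp only [P]; compute_degree!
  have hP0 : P ≠ 0 := by rintro h; rw [h] at hPdeg; simp at hPdeg
  have hPd : P.degree ≠ 0 := by
    rw [degree_eq_natDegree hP0, hPdeg]; norm_num
  have : CharP (AdjoinRoot P) 2 :=
    charP_of_injective_ringHom (AdjoinRoot.of.injective_of_degree_ne_zero hPd) 2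
  have hroot : (AdjoinRoot.root P) ^ 9 + (AdjoinRoot.root P) ^ 8 + (AdjoinRoot.root P) ^ 7 +
      (AdjoinRoot.root P) ^ 3 + (AdjoinRoot.root P) ^ 2 + (AdjoinRoot.root P) + 1 = 0 := by
    have := AdjoinRoot.eval₂_root P
    simpa [P] using this
  have h511 := pow_511 _ hroot
  have hdvd : P ∣ X ^ 512 - X := by
    rw [← AdjoinRoot.mk_eq_zero]
    simp only [map_sub, map_pow, AdjoinRoot.mk_X]
    rw [show (512 : ℕ) = 511 + 1 from rfl, pow_succ, h511, one_mul, sub_self]
  have hsplit : (X ^ 512 - X : F[X]).Splits := by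
    rw [splits_iff_card_roots]
    have h := FiniteField.roots_X_pow_card_sub_X F
    rw [hF] at h
    have h2 := FiniteField.X_pow_card_sub_X_natDegree_eq F (p := 512) (by norm_num)
    rw [h2]
    have h3 : (2 : ℕ) ^ 9 = 512 := by norm_num
    rw [h3] at h
    rw [h, ← Finset.card_def, Finset.card_univ, hF]
    norm_num
  have hne : (X ^ 512 - X : F[X]) ≠ 0 :=
    FiniteField.X_pow_card_sub_X_ne_zero F (by norm_num)
  have hPs : P.Splits := Polynomial.Splits.of_dvd hsplit hne hdvd
  obtain ⟨α, hα⟩ := hPs.exists_eval_eq_zero hPd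
  refine ⟨α, ?_⟩
  simpa [P] using hα

variable {α : F} (hα : α ^ 9 + α ^ 8 + α ^ 7 + α ^ 3 + α ^ 2 + α + 1 = 0)

omit [Fintype F] [Algebra (ZMod 2) F] in
include hα in
theorem alpha_ne_zero : α ≠ 0 := by
  rintro rfl
  norm_num at hα

omit [Fintype F] in
include hα in
theorem val_ne_zero (b : ℕ) (hb : b < 512) (hb0 : b ≠ 0) : val α b ≠ 0 := by
  have := charTwo F
  have h := pow_eq α hα (lg b) (by have := lg_lt b hb; omega)
  rw [tab_lg b hb hb0] at h
  rw [← h]
  exact pow_ne_zero _ (alpha_ne_zero hα)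

theorem tab_ne_one : ∀ j < 511, j ≠ 0 → tab j ^^^ 1 ≠ 0 ∧ tab j ^^^ 1 < 512 := by
  decide +kernel

omit [Fintype F] in
include hα in
theorem orderOf_alpha : orderOf α = 511 := by
  have := charTwo F
  have hne : ∀ j : ℕ, j < 511 → j ≠ 0 → α ^ j ≠ 1 := by
    intro j hj hj0 h
    have h1 := pow_eq α hα j (by omega)
    have h2 := tab_ne_one j hj hj0
    apply val_ne_zero hα _ h2.2 h2.1
    rw [val_xor, val_one, ← h1, h, CharTwo.add_self_eq_zero]
  have hdvd : orderOf α ∣ 511 := orderOf_dvd_of_pow_eq_one (pow_511 α hα)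
  have hpos : 0 < orderOf α := Nat.pos_of_dvd_of_pos hdvd (by norm_num)
  have hle : orderOf α ≤ 511 := Nat.le_of_dvd (by norm_num) hdvd
  by_contra hcon
  exact hne (orderOf α) (by omega) (by omega) (pow_orderOf_eq_one α)

/-- the feedback function -/
noncomputable def gfun (α : F) (x : F) : ZMod 2 :=
  Algebra.trace (ZMod 2) F (α ^ 301 * x ^ 107)

theorem finrank_eq (hF : Fintype.card F = 2 ^ 9) : Module.finrank (ZMod 2) F = 9 := by
  have h := Module.card_eq_pow_finrank (K := ZMod 2) (V := F)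
  rw [hF, ZMod.card] at h
  exact (Nat.pow_right_injective (le_refl 2) h).symm

/-- the conjugates of `α^k` summed, as bits -/
def trx (k : ℕ) : ℕ :=
  tab ((k * 2 ^ 0) % 511) ^^^ tab ((k * 2 ^ 1) % 511) ^^^ tab ((k * 2 ^ 2) % 511) ^^^
  tab ((k * 2 ^ 3) % 511) ^^^ tab ((k * 2 ^ 4) % 511) ^^^ tab ((k * 2 ^ 5) % 511) ^^^
  tab ((k * 2 ^ 6) % 511) ^^^ tab ((k * 2 ^ 7) % 511) ^^^ tab ((k * 2 ^ 8) % 511)

theorem trx_eq : ∀ k < 9, trx k = if mask.testBit k then 1 else 0 := by decide +kernel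

omit [Fintype F] in
include hα in
theorem pow_mod (j : ℕ) : α ^ j = val α (tab (j % 511)) := by
  have := charTwo F
  rw [← pow_eq α hα (j % 511) (by omega)]
  conv_lhs => rw [← Nat.div_add_mod j 511]
  rw [pow_add, pow_mul, pow_511 α hα, one_pow, one_mul]

include hα in
theorem trace_pow (hF : Fintype.card F = 2 ^ 9) (k : ℕ) (hk : k < 9) :
    Algebra.trace (ZMod 2) F (α ^ k) = if mask.testBit k then 1 else 0 := by
  have := charTwo F
  have h1 := FiniteField.algebraMap_trace_eq_sum_pow (ZMod 2) F (α ^ k)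
  rw [finrank_eq hF, Nat.card_zmod] at h1
  apply (algebraMap (ZMod 2) F).injective
  rw [h1]
  have h2 : ∑ i ∈ range 9, (α ^ k) ^ 2 ^ i = val α (trx k) := by
    unfold trx
    simp only [val_xor, ← pow_mod hα, sum_range_succ, sum_range_zero, ← pow_mul, zero_add]
  rw [h2, trx_eq k hk]
  split_ifs
  · rw [val_one, map_one]
  · rw [val_zero, map_zero]

theorem testBit9 (b : ℕ) (hb : b < 512) : b.testBit 9 = false :=
  Nat.testBit_lt_two_pow (by simpa using hb)

/-- cast of a bit to `F₂` -/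
def toZ (b : Bool) : ZMod 2 := if b then 1 else 0

theorem toZ_xor (a b : Bool) : toZ (xor a b) = toZ a + toZ b := by
  cases a <;> cases b <;> decide

theorem toZ_and (a b : Bool) : toZ (a && b) = toZ a * toZ b := by
  cases a <;> cases b <;> decide

include hα in
theorem trace_val (hF : Fintype.card F = 2 ^ 9) (b : ℕ) (hb : b < 512) :
    Algebra.trace (ZMod 2) F (val α b) = toZ (par9 (b &&& mask)) := by
  have h9 := testBit9 b hb
  unfold val
  rw [sum_range_succ (n := 9), h9]
  simp only [Bool.false_eq_true, if_false, add_zero]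
  rw [map_sum]
  have h : ∀ i ∈ range 9, Algebra.trace (ZMod 2) F (if b.testBit i then α ^ i else 0) =
      toZ ((b &&& mask).testBit i) := by
    intro i hi
    rw [Nat.testBit_and]
    have h3 := trace_pow hα hF i (mem_range.mp hi)
    cases b.testBit i
    · simp [toZ]
    · simp [h3, toZ]
  rw [sum_congr rfl h]
  unfold par9
  simp only [toZ_xor, sum_range_succ, sum_range_zero]
  ring

include hα in
/-- value of the feedback function in coordinates -/
theorem gfun_val (hF : Fintype.card F = 2 ^ 9) (b : ℕ) (hb : b < 512) :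
    gfun α (val α b) = toZ (GN.testBit b) := by
  have := charTwo F
  unfold gfun
  by_cases hb0 : b = 0
  · subst hb0
    rw [G_zero, val_zero]
    simp [toZ]
  · have h := pow_eq α hα (lg b) (by have := lg_lt b hb; omega)
    rw [tab_lg b hb hb0] at h
    rw [← h, ← pow_mul, ← pow_add, G_spec b hb hb0, pow_mod hα, trace_val hα hF]
    · rw [mul_comm 107]
    · exact tab_lt _ (by omega)

theorem sum_trace (F : Type) [Field F] [Fintype F] [Algebra (ZMod 2) F] :
    ∑ y : F, (-1 : ℤ) ^ (Algebra.trace (ZMod 2) F y).val = 0 := by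
  obtain ⟨y0, hy0⟩ : ∃ y : F, Algebra.trace (ZMod 2) F y ≠ 0 := by
    by_contra hcon
    push Not at hcon
    exact Algebra.trace_ne_zero (ZMod 2) F (LinearMap.ext hcon)
  have hy1 : Algebra.trace (ZMod 2) F y0 = 1 := by
    revert hy0
    generalize Algebra.trace (ZMod 2) F y0 = t
    revert t
    decide
  have hflip : ∀ t : ZMod 2, (-1 : ℤ) ^ (t + 1).val = -(-1 : ℤ) ^ t.val := by decide
  have h : ∑ y : F, (-1 : ℤ) ^ (Algebra.trace (ZMod 2) F y).val =
      -∑ y : F, (-1 : ℤ) ^ (Algebra.trace (ZMod 2) F y).val := by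
    calc ∑ y : F, (-1 : ℤ) ^ (Algebra.trace (ZMod 2) F y).val
        = ∑ y : F, (-1 : ℤ) ^ (Algebra.trace (ZMod 2) F (y + y0)).val := by
          exact (Equiv.sum_comp (Equiv.addRight y0)
            (fun y => (-1 : ℤ) ^ (Algebra.trace (ZMod 2) F y).val)).symm
      _ = ∑ y : F, -(-1 : ℤ) ^ (Algebra.trace (ZMod 2) F y).val := by
          refine sum_congr rfl fun y _ => ?_
          rw [map_add, hy1, hflip]
      _ = _ := by rw [sum_neg_distrib]
  omega

omit [Algebra (ZMod 2) F] in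
theorem pow107_inverse (hF : Fintype.card F = 2 ^ 9) (z : F) : (z ^ 107) ^ 277 = z := by
  by_cases hz : z = 0
  · subst hz; norm_num
  · have h := FiniteField.pow_card_sub_one_eq_one z hz
    rw [hF] at h
    have h' : z ^ 511 = 1 := h
    rw [← pow_mul, show 107 * 277 = 511 * 58 + 1 from rfl, pow_add, pow_mul, h', one_pow, one_mul,
      pow_one]

omit [Algebra (ZMod 2) F] in
theorem pow107_injective (hF : Fintype.card F = 2 ^ 9) :
    Function.Injective (fun x : F => x ^ 107) := by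
  intro x y hxy
  simp only at hxy
  rw [← pow107_inverse hF x, hxy, pow107_inverse hF y]

theorem isOrthogonal_gfun (hF : Fintype.card F = 2 ^ 9) (β : F) (hβ : β ≠ 0) :
    IsOrthogonal (fun x : F => Algebra.trace (ZMod 2) F (β * x ^ 107)) := by
  have := charTwo F
  intro l hl
  have hl' : l ^ 107 + 1 ≠ 0 := by
    intro h
    apply hl
    have h1 : l ^ 107 = 1 ^ 107 := by
      rw [one_pow]
      have h2 : l ^ 107 + 1 + 1 = 0 + 1 := by rw [h]
      rwa [add_assoc, CharTwo.add_self_eq_zero, add_zero, zero_add] at h2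
    exact pow107_injective hF h1
  have hγ : β * (l ^ 107 + 1) ≠ 0 := mul_ne_zero hβ hl'
  have hinj : Function.Injective (fun x : F => β * (l ^ 107 + 1) * x ^ 107) := by
    intro x y hxy
    exact pow107_injective hF (mul_left_cancel₀ hγ hxy)
  have hbij : Function.Bijective (fun x : F => β * (l ^ 107 + 1) * x ^ 107) :=
    Finite.injective_iff_bijective.mp hinj
  have hval : ∀ a b : ZMod 2, (-1 : ℤ) ^ (a.val + b.val) = (-1 : ℤ) ^ (a + b).val := by decide
  calc ∑ x : F, (-1 : ℤ) ^ ((Algebra.trace (ZMod 2) F (β * (l * x) ^ 107)).val +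
        (Algebra.trace (ZMod 2) F (β * x ^ 107)).val)
      = ∑ x : F, (-1 : ℤ) ^ (Algebra.trace (ZMod 2) F (β * (l ^ 107 + 1) * x ^ 107)).val := by
        refine sum_congr rfl fun x _ => ?_
        rw [hval, ← map_add]
        congr 3
        ring
    _ = ∑ y : F, (-1 : ℤ) ^ (Algebra.trace (ZMod 2) F y).val :=
        hbij.sum_comp (fun y => (-1 : ℤ) ^ (Algebra.trace (ZMod 2) F y).val)
    _ = 0 := sum_trace F

omit [Fintype F] in
/-- a coordinate vector as a bit string -/
theorem ofCoords_eq (α : F) (x : Fin 9 → ZMod 2) (b : ℕ) (hb : b < 512)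
    (h : ∀ i : Fin 9, x i = toZ (b.testBit i)) : ofCoords α x = val α b := by
  have h9 := testBit9 b hb
  unfold ofCoords val
  rw [sum_range_succ (n := 9), h9]
  simp only [Bool.false_eq_true, if_false, add_zero]
  rw [Finset.sum_range]
  refine sum_congr rfl fun i _ => ?_
  rw [h i]
  cases b.testBit (i : ℕ) <;> simp [toZ]

include hα in
theorem not_affine (hF : Fintype.card F = 2 ^ 9) : ¬ IsAffineInCoords 9 α (gfun α) := by
  rintro ⟨a, b, hab⟩
  have key : ∀ v < 512, toZ (GN.testBit v) = b + ∑ i : Fin 9, a i * toZ (v.testBit i) := by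
    intro v hv
    rw [← gfun_val hα hF v hv, ← hab, ofCoords_eq α (fun i => toZ (v.testBit i)) v hv
      (fun i => rfl)]
  have k0 := key 0 (by norm_num)
  have k2 := key 2 (by norm_num)
  have k4 := key 4 (by norm_num)
  have k6 := key 6 (by norm_num)
  have e : toZ (GN.testBit 0) + toZ (GN.testBit 2) + toZ (GN.testBit 4) + toZ (GN.testBit 6) =
      1 := by decide +kernel
  have hlin : ∀ i : Fin 9, toZ ((0 : ℕ).testBit i) + toZ ((2 : ℕ).testBit i) +
      toZ ((4 : ℕ).testBit i) + toZ ((6 : ℕ).testBit i) = 0 := by decide +kernel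
  have hsum : (∑ i : Fin 9, a i * toZ ((0 : ℕ).testBit i)) +
      (∑ i : Fin 9, a i * toZ ((2 : ℕ).testBit i)) +
      (∑ i : Fin 9, a i * toZ ((4 : ℕ).testBit i)) +
      (∑ i : Fin 9, a i * toZ ((6 : ℕ).testBit i)) = 0 := by
    rw [← sum_add_distrib, ← sum_add_distrib, ← sum_add_distrib]
    apply sum_eq_zero
    intro i _
    rw [← mul_add, ← mul_add, ← mul_add, hlin i, mul_zero]
  rw [k0, k2, k4, k6] at e
  have h4 : ∀ b : ZMod 2, b + b + b + b = 0 := by decide
  have : (0 : ZMod 2) = 1 := by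
    calc (0 : ZMod 2) = (b + b + b + b) + ((∑ i : Fin 9, a i * toZ ((0 : ℕ).testBit i)) +
      (∑ i : Fin 9, a i * toZ ((2 : ℕ).testBit i)) +
      (∑ i : Fin 9, a i * toZ ((4 : ℕ).testBit i)) +
      (∑ i : Fin 9, a i * toZ ((6 : ℕ).testBit i))) := by rw [h4 b, hsum, add_zero]
      _ = 1 := by rw [← e]; ring
  exact zero_ne_one this

end Field

/-- the sequence -/
def seq (k : ℕ) : ZMod 2 := toZ (SN.testBit (k % 1023))

theorem seq_period (k : ℕ) : seq (k + 1023) = seq k := by
  unfold seq; rw [Nat.add_mod_right]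

theorem SN_lt : SN < 2 ^ 1023 := by decide +kernel

theorem seq_D (k : ℕ) (hk : k < 2046) : seq k = toZ (DN.testBit k) := by
  unfold seq DN
  rw [Nat.testBit_or, Nat.testBit_shiftLeft]
  by_cases h : k < 1023
  · rw [Nat.mod_eq_of_lt h]
    have : decide (k ≥ 1023) = false := by simp; omega
    rw [this]
    simp
  · have h1 : k % 1023 = k - 1023 := by
      rw [Nat.mod_eq_sub_mod (by omega), Nat.mod_eq_of_lt (by omega)]
    rw [h1]
    have h2 : SN.testBit k = false := by
      apply Nat.testBit_lt_two_pow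
      exact lt_of_lt_of_le SN_lt (Nat.pow_le_pow_right (by norm_num) (by omega))
    have : decide (k ≥ 1023) = true := by simp; omega
    rw [h2, this]
    simp

theorem seq_mod (k j : ℕ) : seq (k + j) = seq (k % 1023 + j) := by
  unfold seq
  rw [Nat.mod_add_mod]

theorem isGenerated {F : Type} [Field F] [Fintype F] [Algebra (ZMod 2) F]
    (hF : Fintype.card F = 2 ^ 9) (α : F)
    (hα : α ^ 9 + α ^ 8 + α ^ 7 + α ^ 3 + α ^ 2 + α + 1 = 0) :
    IsGenerated α (gfun α) 10 0 (fun i : Fin 9 => (i : ℕ) + 1) seq := by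
  intro k
  have e1 : seq k = seq (k % 1023) := by
    have := seq_mod k 0
    simpa using this
  rw [seq_mod k 10, e1]
  have e2 : (fun i : Fin 9 => seq (k + ((i : ℕ) + 1))) =
      (fun i : Fin 9 => seq (k % 1023 + ((i : ℕ) + 1))) := by
    funext i
    exact seq_mod k _
  rw [e2]
  have hk : k % 1023 < 1023 := Nat.mod_lt _ (by norm_num)
  generalize k % 1023 = j at hk
  have hb : (DN >>> (j + 1)) % 512 < 512 := Nat.mod_lt _ (by norm_num)
  rw [ofCoords_eq α _ ((DN >>> (j + 1)) % 512) hb, gfun_val hα hF _ hb, seq_D _ (by omega),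
    seq_D _ (by omega), rec_spec j hk, toZ_xor, zero_add]
  intro i
  have hi := i.isLt
  rw [seq_D _ (by omega)]
  rw [show (512 : ℕ) = 2 ^ 9 from rfl, Nat.testBit_mod_two_pow, Nat.testBit_shiftRight]
  have : decide ((i : ℕ) < 9) = true := decide_eq_true hi
  rw [this, Bool.true_and, show j + ((i : ℕ) + 1) = j + 1 + (i : ℕ) by ring]

theorem toZ_injective : Function.Injective toZ := by
  intro a b
  revert a b
  decide

theorem toZ_surj (v : ZMod 2) : toZ (decide (v = 1)) = v := by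
  revert v
  decide

theorem window_bit (k : ℕ) (hk : k < 1023) (i : Fin 10) :
    seq (k + (i : ℕ)) = toZ (((DN >>> k) % 1024).testBit i) := by
  have hi := i.isLt
  rw [seq_D _ (by omega), show (1024 : ℕ) = 2 ^ 10 from rfl, Nat.testBit_mod_two_pow,
    Nat.testBit_shiftRight]
  have : decide ((i : ℕ) < 10) = true := decide_eq_true hi
  rw [this, Bool.true_and]

theorem isSpanN : IsSpanN 10 seq := by
  refine ⟨fun k => ?_, fun v hv => ?_⟩
  · exact seq_period k
  · let w : ℕ := Nat.ofBits (fun i : Fin 10 => decide (v i = 1))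
    have hw : w < 1024 := Nat.ofBits_lt_two_pow _
    have hwb : ∀ i : Fin 10, toZ (w.testBit i) = v i := by
      intro i
      rw [Nat.testBit_ofBits_lt _ _ i.isLt]
      exact toZ_surj _
    have hw0 : w ≠ 0 := by
      intro h0
      apply hv
      funext i
      rw [← hwb i, h0]
      simp [toZ]
    obtain ⟨hp, hpw⟩ := pos_spec w hw hw0
    refine ⟨pos w, ⟨hp, fun i => ?_⟩, ?_⟩
    · rw [window_bit _ hp, hpw, hwb]
    · rintro k ⟨hk, hkv⟩
      have hk' : k < 1023 := hk
      have h1 : (DN >>> k) % 1024 = w := by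
        apply Nat.eq_of_testBit_eq
        intro i
        by_cases hi : i < 10
        · have h2 := hkv ⟨i, hi⟩
          rw [window_bit k hk' ⟨i, hi⟩, ← hwb ⟨i, hi⟩] at h2
          exact toZ_injective h2
        · have hpow : (1024 : ℕ) ≤ 2 ^ i := by
            calc (1024 : ℕ) = 2 ^ 10 := rfl
              _ ≤ 2 ^ i := Nat.pow_le_pow_right (by norm_num) (by omega)
          rw [Nat.testBit_lt_two_pow (lt_of_lt_of_le (Nat.mod_lt _ (by norm_num)) hpow),
            Nat.testBit_lt_two_pow (lt_of_lt_of_le hw hpow)]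
      rw [← h1, win_ne k hk']

theorem R_bit (k : ℕ) : ∀ t : ℕ,
    toZ ((R t).testBit k) = ∑ i ∈ range t, toZ (AN.testBit i) * toZ (DN.testBit (i + k)) := by
  intro t
  induction t with
  | zero => simp [R, toZ]
  | succ t ih =>
    rw [R, Nat.testBit_xor, toZ_xor, ih, sum_range_succ]
    congr 1
    cases AN.testBit t
    · simp [toZ]
    · simp [toZ, Nat.testBit_shiftRight]

theorem R_bit_eq (T P : ℕ) (h : (R T ^^^ (DN >>> T)) % 2 ^ P = 0) (j : ℕ) (hj : j < P) :
    (R T).testBit j = DN.testBit (T + j) := by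
  have h2 : ((R T ^^^ (DN >>> T)) % 2 ^ P).testBit j = false := by
    rw [h]; simp
  rw [Nat.testBit_mod_two_pow, decide_eq_true hj, Bool.true_and, Nat.testBit_xor,
    Nat.testBit_shiftRight] at h2
  revert h2
  cases (R T).testBit j <;> cases DN.testBit (T + j) <;> simp

theorem lin_rec (k : ℕ) :
    seq (k + 987) = ∑ i : Fin 987, toZ (AN.testBit i) * seq (k + (i : ℕ)) := by
  rw [seq_mod]
  have e2 : ∀ i : Fin 987, seq (k + (i : ℕ)) = seq (k % 1023 + (i : ℕ)) := fun i => seq_mod k _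
  simp only [e2]
  have hk : k % 1023 < 1023 := Nat.mod_lt _ (by norm_num)
  generalize k % 1023 = j at hk
  have h4 : (R 987).testBit j = DN.testBit (987 + j) := R_bit_eq 987 1023 R_spec j hk
  rw [seq_D _ (by omega), add_comm j 987, ← h4, R_bit j 987, Finset.sum_range]
  refine sum_congr rfl fun i _ => ?_
  have hi := i.isLt
  rw [seq_D _ (by omega), add_comm j]

theorem linearSpan_le : linearSpan seq ≤ 987 :=
  Nat.sInf_le ⟨fun i => toZ (AN.testBit i), lin_rec⟩

end Aux

end Pool.Agent.SpanN
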